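import Mathlib
import Pool.Agent.Helper94_PDM.Main
import Pool.Agent.Helper94_PDM.Hard
import Pool.Agent.Helper43_PDT.Mat
import Pool.Agent.Helper43_PDT.Lst
import Pool.Agent.Helper43_PDT.Okt
import Pool.Agent.Helper43_PDT.Sou
import Pool.Agent.Helper53_PDT.Tim
import Pool.Agent.Helper56_PDT.COM
import Pool.Agent.Helper21_PDN.Sanity

/-!
# Recognizing the degree sequences of planar graphs is NP-hard

The known conditions for the degree sequences of all graphs (Havel, Erdős and Gallai, Fulkerson,
Hoffman and McAndrew) are checked in polynomial time. We show that it is NP-hard to decide whether
a list of natural numbers, written in unary, is the degree sequence of a planar graph. So, unless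
P = NP, there are no necessary and sufficient conditions for planar graphs which can be checked in
polynomial time.

`PDN.Planar G` (file `Pool/Agent/PDN/Defs.lean`): `G` has a rotation system of genus zero, that is
a permutation `ρ` of the darts (ordered pairs of adjacent vertices) which permutes, for every
vertex, the darts leaving this vertex in one cycle, such that
`|V| + |faces| + |isolated vertices| = |E| + 2 |components|`, where the faces are the cycles of
`d ↦ ρ (reverse of d)`. (Sanity check, file `Pool/Agent/Helper21_PDN/Sanity.lean`: `K₄` is planar,
`K₅` is not.)

`degreeProblem 𝒢` (file `Pool/Agent/Helper94_PDM/Hard.lean`): the instances are the finite lists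
of natural numbers, an entry `v` is written as `v` letters `true` followed by one letter `false`;
the answer is yes if the list is, up to the order, the list of the degrees of a finite simple
graph in the class `𝒢`.

`NPHard P` (file `Pool/Agent/PDT/Stmts2.lean`): every language `L ⊆ {0,1}*` in NP is
polynomial-time many-one reducible to `P`. Here `InNP` means: certificates of polynomial length
over a finite alphabet and a polynomial-time verifier; polynomial time is Mathlib's
`Turing.TM2ComputableInPolyTime`.

The theorem holds for every class `𝒢` of planar graphs which contains all maximal planar graphs
(planar, `n ≥ 4` vertices and `3 n - 6` edges): for instance the class of all planar graphs, of the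
connected ones, of the graphs of the 3-dimensional convex polytopes, of the triangulations of the
sphere.

Proof: satisfiability is reduced to 3-dimensional matching (Karp; Garey and Johnson), and for every
instance of 3-dimensional matching there is a list of numbers, of polynomial size, which is the
degree sequence of a planar graph if and only if there is a matching.
-/

set_option autoImplicit false

namespace Pool.Agent.Results.MP_afe9e9_co.DegreesNPHard

open Pool.Agent.PDN Pool.Agent.PDM Pool.Agent.PDT Pool.Agent.PDM.H94

/-- Let `𝒢` be a class of planar graphs which contains all maximal planar graphs. Then it is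
NP-hard to decide whether a list of natural numbers, written in unary, is the degree sequence of a
graph in `𝒢`. -/
theorem result (𝒢 : (V : Type) → SimpleGraph V → Prop)
    (hpl : ∀ (V : Type) [Fintype V] (G : SimpleGraph V), 𝒢 V G → Planar G)
    (hmax : ∀ (V : Type) [Fintype V] (G : SimpleGraph V), Planar G → 4 ≤ Fintype.card V →
      Nat.card G.edgeSet + 6 = 3 * Fintype.card V → 𝒢 V G) :
    NPHard (degreeProblem 𝒢) :=
  hard Pool.Agent.PDT.H43.okt Pool.Agent.PDT.H43.sou Pool.Agent.PDT.H56.com
    Pool.Agent.PDT.H43.mat Pool.Agent.PDT.H43.lst Pool.Agent.PDT.H53.tim ne3' su3 siz 𝒢 hpl hmax

end Pool.Agent.Results.MP_afe9e9_co.DegreesNPHard
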