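import Pool.Agent.Helper30_PDZ.FIN
import Pool.Agent.Helper49_PDZ.PST
import Pool.Agent.Helper89_PDZ.Asm
import Pool.Agent.Helper89_PDZ.Evn
import Pool.Agent.PDZ.CHO
import Pool.Agent.Helper86_PDZ.Tub
import Pool.Agent.Helper20_PDZ.Tub

/-!
# Degree sequences of planar graphs: Hakimi's condition and one more inequality suffice

`PDS.Planar G` says that `G` has a drawing without crossings in the plane (`PDS.Drawing`).
`num v p` is the number of the entries of the sequence `v` with the property `p`.

Let `v` be a sequence with even sum and all entries at most `Δ`; write `n_j` for the number of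
the entries `j`, `U = n_1 + 2 n_2 + 2 n_4`, `F` for the sum of the `v i - 6` over the entries at most
`12`, `h` for the number of the entries which are at least `13` and `o` for the number of the odd
ones among them. There is a constant `C` (independent of `v` and `Δ`) such that `v` is the degree
sequence of a planar graph if

* (H) `∑ (v i - 6) + C Δ ≤ U + 3 n_3 + n_5`, and
* (P) `3 ∑ (v i - 6) + C Δ ≤ 3 (U + n_5) + 6 n_3 + F + (6 h - (o - U) - n_5)`.

(Differences of natural numbers are truncated: `a - b = 0` if `a ≤ b`.)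

(H) is Hakimi's necessary condition with `C Δ` in place of `12`. If `n_3 = 0` or if all entries are
at most `12`, then (P) follows from (H). If no entry is in `{5, .., 11}`, then (P) says that
`3 ∑ (v i - 8) + C Δ ≤ 3 U + 6 n_3` and `3 ∑ (v i - 8) + o + C Δ ≤ 4 U + 6 n_3`; with `0` in place of
`C Δ` these two inequalities are necessary (Euler's formula for the edges between the large and the
small vertices; parity of the large degrees).
-/

namespace Pool.Agent.Results.MP_afe9e9_co.HakimiWithThrees

/-- The number of the entries of the sequence `v` with the property `p`. -/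
noncomputable def num {n : ℕ} (v : Fin n → ℕ) (p : ℕ → Prop) : ℕ := Nat.card {i // p (v i)}

/-- Every sequence with even sum and entries at most `Δ` satisfying (H) and (P) is realized by
a planar graph. -/
theorem result : ∃ C : ℕ, ∀ (n : ℕ) (v : Fin n → ℕ) (Δ : ℕ), (∀ i, v i ≤ Δ) →
    (∑ i, v i) % 2 = 0 →
    ∑ i, (v i - 6) + C * Δ ≤ num v (· = 1) + 2 * num v (· = 2) + 3 * num v (· = 3) +
      2 * num v (· = 4) + num v (· = 5) →
    3 * ∑ i, (v i - 6) + C * Δ ≤
      3 * (num v (· = 1) + 2 * num v (· = 2) + 2 * num v (· = 4) + num v (· = 5)) +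
      6 * num v (· = 3) + ∑ i, (if v i ≤ 12 then v i - 6 else 0) +
      (6 * num v (13 ≤ ·) - (num v (fun x => 13 ≤ x ∧ x % 2 = 1) -
        (num v (· = 1) + 2 * num v (· = 2) + 2 * num v (· = 4))) - num v (· = 5)) →
    ∃ G : SimpleGraph (Fin n), PDS.Planar G ∧ ∀ i, (G.neighborSet i).ncard = v i := by
  obtain ⟨C, hC⟩ := PDZ.H30.fin (PDZ.H49.sst (PDZ.H49.pst (PDZ.H89.asm (PDZ.H86.tt PDZ.tub)
    (PDZ.H86.tb PDZ.tub) (PDZ.H86.te PDZ.tub)) PDZ.H46.cho))
  refine ⟨C, fun n v Δ h1 h2 h3 h4 => hC n v Δ h1 h2 (Or.inl ?_)⟩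
  simp only [num] at h3 h4
  simp only [PDZ.nu]
  generalize C * Δ = c at *
  omega

end Pool.Agent.Results.MP_afe9e9_co.HakimiWithThrees
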