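import Mathlib
import Pool.Agent.Helper94_PDM.Main
import Pool.Agent.Helper94_PDM.Hard
import Pool.Agent.Helper43_PDT.Mat
import Pool.Agent.Helper43_PDT.Lst
import Pool.Agent.Helper43_PDT.Okt
import Pool.Agent.Helper43_PDT.Sou
import Pool.Agent.Helper53_PDT.Tim
import Pool.Agent.Helper56_PDT.COM
import Pool.Agent.Helper94_PDX.Main
import Pool.Agent.Helper60_PDX.Mt1
import Pool.Agent.Helper60_PDX.Mt2
import Pool.Agent.Helper17_PDX.INV
import Pool.Agent.Helper94_PDX.Zro
import Pool.Agent.Helper49_PDX.Map
import Pool.Agent.Helper49_PDN.All

/-!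
# Degree sequences of planar graphs: there is no criterion of the kind asked for

The question asks for necessary and sufficient conditions on the entries, of the same kind as the
known conditions for the degree sequences of all graphs, for a sequence to be the degree sequence of
a planar graph. The known conditions (Erdős and Gallai; Fulkerson, Hoffman and McAndrew)

* can be checked in polynomial time;
* are systems of at most `n ^ 2` inequalities `0 ≤ φ 1 (v 1) + .. + φ n (v n)`, together with the
  parity of the sum, where `φ i` is a function of one entry;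
* say that `v` is in a certain convex set, together with the parity of the sum.

We show that for planar graphs there are no conditions of this kind, in each of the three senses:

* (i) it is NP-hard to decide whether a list of natural numbers, written in unary, is the degree
  sequence of a planar graph (and also if planar graphs are replaced by any class of planar graphs
  which contains the maximal planar graphs);
* (ii) let `n ≥ 10 ^ 11 (8 m + 2) ^ 19`; a system of `K` conditions, each of them an arbitrary
  Boolean function of `s` inequalities `0 ≤ ∑ i, φ i (v i)` with arbitrary functions `φ i : ℕ → ℝ`,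
  which is correct for the nonincreasing sequences `v` of length `n` with sum `6 n' - 12`, `n'` the
  number of the nonzero entries, has `K ≥ (9 / 8) ^ m / (2 (4 m + 3) ^ s)`;
* (iii) for `m, M ≥ 1` there is a length `n`, `2 ^ m ≤ n ≤ 432 (m + 3) ^ 3 M 2 ^ m`, such that no
  Boolean combination of the membership in `r` convex subsets of `ℝ ^ n`, the signs of polynomials
  of total degree `d` (sum of the degrees), `2 r + 2 d + 2 < 2 ^ m`, and congruences modulo `M` for
  the entries is a criterion for the nonincreasing sequences of length `n` with sum `6 n - 12`.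

`PDN.Planar G` (file `Pool/Agent/PDN/Defs.lean`): `G` has a rotation system of genus zero, that is
a permutation `ρ` of the darts (ordered pairs of adjacent vertices) which permutes, for every
vertex, the darts leaving this vertex in one cycle, such that
`|V| + |faces| + |isolated vertices| = |E| + 2 |components|`, where the faces are the cycles of
`d ↦ ρ (reverse of d)`. `PDN.Realizable s`: the finite multiset `s` is the family of the degrees of
a finite planar simple graph. `degreeProblem 𝒢` (file `Pool/Agent/Helper94_PDM/Hard.lean`): given a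
list of natural numbers (an entry `v` is written as `v` letters `true` and one letter `false`), is
it up to the order the list of the degrees of a finite simple graph in the class `𝒢`? `NPHard P`
(file `Pool/Agent/PDT/Stmts2.lean`): every language in NP is polynomial-time many-one reducible to
`P`, where polynomial time is Mathlib's `Turing.TM2ComputableInPolyTime`.
-/

set_option autoImplicit false

namespace Pool.Agent.Results.MP_afe9e9_co.NegativeAnswer

open Pool.Agent.PDN Pool.Agent.PDM Pool.Agent.PDT Pool.Agent.PDM.H94

/-- There are no necessary and sufficient conditions, of the same kind as the known ones for all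
graphs, for a sequence to be the degree sequence of a planar graph: (i) none which can be checked in
polynomial time (unless P = NP), (ii) no system of a subexponential number of inequalities between
sums of functions of the single entries, (iii) no Boolean combination of few convex conditions,
polynomial inequalities and congruences. -/
theorem result :
    -- (i)
    (∀ 𝒢 : (V : Type) → SimpleGraph V → Prop,
      (∀ (V : Type) [Fintype V] (G : SimpleGraph V), 𝒢 V G → Planar G) →
      (∀ (V : Type) [Fintype V] (G : SimpleGraph V), Planar G → 4 ≤ Fintype.card V →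
        Nat.card G.edgeSet + 6 = 3 * Fintype.card V → 𝒢 V G) →
      NPHard (degreeProblem 𝒢)) ∧
    -- (ii)
    (∀ m n : ℕ, 10 ^ 11 * (8 * m + 2) ^ 19 ≤ n →
      ∀ (K s : ℕ) (φ : Fin K → Fin s → Fin n → ℕ → ℝ) (G : Fin K → Set (Fin s) → Prop),
        (∀ v : Fin n → ℕ, Antitone v →
          ∑ i, v i + 12 = 6 * (Finset.univ.filter (fun i => v i ≠ 0)).card →
          (Realizable (Finset.univ.val.map v) ↔ ∀ k, G k {l | 0 ≤ ∑ i, φ k l i (v i)})) →
        9 ^ m ≤ 2 * 8 ^ m * (4 * m + 3) ^ s * K) ∧
    -- (iii)
    (∀ m M : ℕ, 1 ≤ m → 1 ≤ M →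
      ∃ n : ℕ, 2 ^ m ≤ n ∧ n ≤ 432 * (m + 3) ^ 3 * M * 2 ^ m ∧
        ∀ (r s : ℕ) (C : Fin r → Set (Fin n → ℝ)) (f : Fin s → MvPolynomial (Fin n) ℝ),
          (∀ k, Convex ℝ (C k)) → 2 * r + 2 * ∑ l, (f l).totalDegree + 2 < 2 ^ m →
          ∃ x y : Fin n → ℕ,
            (Antitone x ∧ ∑ i, x i + 12 = 6 * n) ∧ (Antitone y ∧ ∑ i, y i + 12 = 6 * n) ∧
            (∀ i, x i ≡ y i [MOD M]) ∧
            (∀ k, (fun i => (x i : ℝ)) ∈ C k ↔ (fun i => (y i : ℝ)) ∈ C k) ∧
            (∀ l, SignType.sign (MvPolynomial.eval (fun i => (x i : ℝ)) (f l)) =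
              SignType.sign (MvPolynomial.eval (fun i => (y i : ℝ)) (f l))) ∧
            Realizable (Finset.univ.val.map x) ∧ ¬ Realizable (Finset.univ.val.map y)) := by
  refine ⟨?_, ?_, ?_⟩
  · intro 𝒢 hpl hmax
    exact hard Pool.Agent.PDT.H43.okt Pool.Agent.PDT.H43.sou Pool.Agent.PDT.H56.com
      Pool.Agent.PDT.H43.mat Pool.Agent.PDT.H43.lst Pool.Agent.PDT.H53.tim ne3' su3 siz 𝒢 hpl hmax
  · intro m n hn K s φ G h
    exact Pool.Agent.PDX.H94.res2 Pool.Agent.PDX.H60.mt1 Pool.Agent.PDX.H60.Mt2.mt2
      Pool.Agent.PDX.H17.inv (Pool.Agent.PDX.H94.zro Pool.Agent.PDX.H49.map) m n hn K s φ G h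
  · intro m M hm hM
    obtain ⟨n, h1, h2, h⟩ := Pool.Agent.PDN.H49.mainP m M hm hM
    refine ⟨n, h1, h2, fun r s C f hC hd => ?_⟩
    obtain ⟨x, y, ⟨hx, hy⟩, -, ⟨hsx, hsy⟩, -, hmod, -, hCk, hsg, hr, hn⟩ := h r s C f hC hd
    exact ⟨x, y, ⟨hx, hsx⟩, ⟨hy, hsy⟩, hmod, hCk, hsg, hr, hn⟩

end Pool.Agent.Results.MP_afe9e9_co.NegativeAnswer
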