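import Mathlib
import Pool.Agent.Helper94_PDX.Main
import Pool.Agent.Helper60_PDX.Mt1
import Pool.Agent.Helper60_PDX.Mt2
import Pool.Agent.Helper17_PDX.INV
import Pool.Agent.Helper94_PDX.Zro
import Pool.Agent.Helper49_PDX.Map

/-!
# Degree sequences of planar graphs: every criterion of Erdős-Gallai type is exponentially long

The conditions of Erdős and Gallai and of Fulkerson, Hoffman and McAndrew for the degree sequences of
all graphs, and Hakimi's necessary condition for planar graphs, are systems of at most `n ^ 2`
inequalities `0 ≤ φ 1 (v 1) + .. + φ n (v n)` for the nonincreasing sequences `v` of length `n` with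
even sum, where `φ i` is a function of one entry. We show that for planar graphs every criterion of this kind has
exponentially many conditions, whatever the functions `φ i : ℕ → ℝ` are.

More precisely let `n ≥ 10 ^ 11 (8 m + 2) ^ 19`, and let `K` conditions be given, each of them an
arbitrary Boolean function `G k` of `s` inequalities `0 ≤ ∑ i, φ k l i (v i)` (`l < s`). Assume that
for all nonincreasing sequences `v` of length `n` with sum `6 n' - 12`, where `n'` is the number of
the nonzero entries, `v` is the degree sequence of a planar graph if and only if all `K` conditions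
hold. Then `K ≥ (9 / 8) ^ m / (2 (4 m + 3) ^ s)`.

For `s = 1` this is `exp (c n ^ (1 / 19))`, and for `K = 1` (one arbitrary Boolean combination of
inequalities) it says that `s` is at least `c n ^ (1 / 19) / log n`. No hypothesis of complexity
theory is used.

`PDN.Planar G` (file `Pool/Agent/PDN/Defs.lean`): `G` has a rotation system of genus zero, that is
a permutation `ρ` of the darts (ordered pairs of adjacent vertices) which permutes, for every
vertex, the darts leaving this vertex in one cycle, such that
`|V| + |faces| + |isolated vertices| = |E| + 2 |components|`, where the faces are the cycles of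
`d ↦ ρ (reverse of d)`. `PDN.Realizable s`: the finite multiset `s` is the family of the degrees of
a finite planar simple graph.

Proof: for two subsets `x`, `y` of a set with `2 m` elements there is a sequence (entries depending
on `x`, entries depending on `y`, constant entries, sorted in the same order for all `x`, `y`) which
is the degree sequence of a planar graph if and only if `x` and `y` meet; the zeros of one condition
contain at most `2 8 ^ m (4 m + 3) ^ s` of the `9 ^ m` disjoint pairs.
-/

set_option autoImplicit false

namespace Pool.Agent.Results.MP_afe9e9_co.NoShortCriterion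

open Pool.Agent.PDN

/-- A system of `K` conditions, each a Boolean function of `s` inequalities
`0 ≤ ∑ i, φ i (v i)` with arbitrary functions of one entry, which characterizes the degree sequences
of planar graphs of length `n ≥ 10 ^ 11 (8 m + 2) ^ 19`, satisfies
`9 ^ m ≤ 2 · 8 ^ m · (4 m + 3) ^ s · K`. -/
theorem result (m n : ℕ) (hn : 10 ^ 11 * (8 * m + 2) ^ 19 ≤ n) (K s : ℕ)
    (φ : Fin K → Fin s → Fin n → ℕ → ℝ) (G : Fin K → Set (Fin s) → Prop)
    (h : ∀ v : Fin n → ℕ, Antitone v →
      ∑ i, v i + 12 = 6 * (Finset.univ.filter (fun i => v i ≠ 0)).card →
      (Realizable (Finset.univ.val.map v) ↔ ∀ k, G k {l | 0 ≤ ∑ i, φ k l i (v i)})) :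
    9 ^ m ≤ 2 * 8 ^ m * (4 * m + 3) ^ s * K :=
  Pool.Agent.PDX.H94.res2 Pool.Agent.PDX.H60.mt1 Pool.Agent.PDX.H60.Mt2.mt2 Pool.Agent.PDX.H17.inv
    (Pool.Agent.PDX.H94.zro Pool.Agent.PDX.H49.map) m n hn K s φ G h

end Pool.Agent.Results.MP_afe9e9_co.NoShortCriterion
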